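import Pool.Agent.Q101.IgAllW

/-!
# Typical compact group extensions of weakly mixing interval exchanges are weakly mixing

Let `T` be a weakly mixing exchange of `d` half-open intervals of `[0,1)` (that is, `T × T` is ergodic)
and let `G` be a compact connected group with a countable base (for instance a compact connected Lie
group). For almost every `(g 1, ..., g d)` in `G^d` (Haar measure) the extension
`T_φ (x, y) = (T x, φ(x) y)`, where `φ = g j` on the `j`-th interval, is weakly mixing.

Idea of the proof. `T_φ` is ergodic for almost every `g` (see MP_5ca0ff_an, TypicalExtensionsErgodic),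
so by the spectral theorem it is enough that `T_φ` has no nonconstant eigenfunctions. The Fourier
coefficients of an eigenfunction give functions `F` with values in unitary representations `ρ` of `G`
and `F (T x) = c ρ(g j) F x`. The theorem on ergodicity, applied to the adjoint representation and
`F Fᴴ`, shows that the values of `F` are joint eigenvectors of `ρ(G)`, and the problem is reduced to
characters `χ ≠ 1`, that is to independent uniformly distributed numbers `a j = χ (g j)` of the
circle and scalar functions with `F (T x) = c a_j F x`. Then `F x · conj (F y)` is a function on the
square which is invariant under the twisted Koopman operator of `T × T`; on averaging over `a` the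
correlations of this operator are bounded by the probability that two independent orbits have visited
an interval equally often up to the time `n`. If the Cesàro means of these probabilities do not tend to
zero, the integer cocycle `ψ x - ψ y` over `T × T` is a coboundary, hence (`T × T × T` is ergodic) the
indicator function `ψ` of an exchanged interval is an integer constant plus a coboundary of an
integer valued function, and its integral, the length of the interval, is an integer: a contradiction.

The parts of the proof (modules `Pool.Agent.Q101.Ig...`) were written by helpers 65, 101, 121, 162,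
192, 224, 239, 275 and 280.
-/

set_option autoImplicit false

open MeasureTheory Set

namespace Pool.Agent.Results.MP_8d8e6a_an.TypicalExtensionsWeaklyMixing

variable {d : ℕ}

/-- The left endpoint of the `j`-th exchanged interval. -/
noncomputable def left (lam : Fin d → ℝ) (j : Fin d) : ℝ :=
  ∑ i ∈ Finset.univ.filter (fun i => i < j), lam i

/-- The left endpoint of the image of the `j`-th interval, which comes at the place `σ j`. -/
noncomputable def left' (lam : Fin d → ℝ) (σ : Equiv.Perm (Fin d)) (j : Fin d) : ℝ :=
  ∑ i ∈ Finset.univ.filter (fun i => σ i < σ j), lam i

/-- The `j`-th exchanged interval, of length `lam j`. -/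
noncomputable def piece (lam : Fin d → ℝ) (j : Fin d) : Set ℝ :=
  Ico (left lam j) (left lam j + lam j)

/-- The interval exchange transformation of `[0,1)` (the identity outside of `[0,1)`): the `j`-th
interval is translated from `left lam j` to `left' lam σ j`. -/
noncomputable def iet (lam : Fin d → ℝ) (σ : Equiv.Perm (Fin d)) (x : ℝ) : ℝ :=
  x + ∑ j, (piece lam j).indicator (fun _ => left' lam σ j - left lam j) x

/-- Lebesgue measure on `[0,1)`. -/
noncomputable def leb : Measure ℝ := volume.restrict (Ico (0 : ℝ) 1)

variable {G : Type} [Group G]

open Classical in
/-- The simple function with the value `g j` on the `j`-th interval (and `1` outside of `[0,1)`). -/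
noncomputable def stepFn (lam : Fin d → ℝ) (g : Fin d → G) (x : ℝ) : G :=
  if h : ∃ j, x ∈ piece lam j then g h.choose else 1

/-- The `G`-extension `(x, y) ↦ (T x, φ(x) y)` of the interval exchange transformation `T`. -/
noncomputable def skew (lam : Fin d → ℝ) (σ : Equiv.Perm (Fin d)) (g : Fin d → G) (p : ℝ × G) :
    ℝ × G :=
  (iet lam σ p.1, stepFn lam g p.1 * p.2)

/-- `T` is weakly mixing with respect to `μ`: `T × T` is ergodic with respect to `μ × μ`. -/
def WeaklyMixing {X : Type} [MeasurableSpace X] (T : X → X) (μ : Measure X) : Prop :=
  Ergodic (Prod.map T T) (μ.prod μ)

theorem result (d : ℕ) (lam : Fin d → ℝ) (σ : Equiv.Perm (Fin d)) (hpos : ∀ j, 0 < lam j)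
    (hsum : ∑ j, lam j = 1) (hT : WeaklyMixing (iet lam σ) leb)
    (G : Type) [Group G] [TopologicalSpace G] [IsTopologicalGroup G] [CompactSpace G]
    [ConnectedSpace G] [T2Space G] [SecondCountableTopology G] [MeasurableSpace G] [BorelSpace G]
    (μ : Measure G) [μ.IsHaarMeasure] [IsProbabilityMeasure μ] :
    ∀ᵐ g ∂(Measure.pi fun _ : Fin d => μ), WeaklyMixing (skew lam σ g) (leb.prod μ) :=
  Q101Ig.all_wmx d lam σ hpos hsum hT G μ

end Pool.Agent.Results.MP_8d8e6a_an.TypicalExtensionsWeaklyMixing
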